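import Pool.Agent.H958.LR.Stm

/-!
Project LR (helper958), piece [SAW]: chains of transmissions within one window.
-/

set_option autoImplicit false

namespace Pool.Agent.H385.LRSaw

open MeasureTheory ProbabilityTheory Set Filter
open scoped ENNReal NNReal Nat Topology

variable {V : Type}

/-- the pairs of the chain `x, l` -/
def edg : V → List V → List (Sym2 V)
  | _, [] => []
  | x, y :: l => s(x, y) :: edg y l

/-- the end of the chain -/
def endp : V → List V → V
  | x, [] => x
  | _, y :: l => endp y l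

/-- the weight of the chain -/
noncomputable def wt (a : V → V → ℝ) : V → List V → ℝ≥0∞
  | _, [] => 1
  | x, y :: l => ENNReal.ofReal (a x y) * wt a y l

theorem tsum_wt (a : V → V → ℝ) (r : ℝ)
    (ha : ∀ x, ∑' y, ENNReal.ofReal (a x y) ≤ ENNReal.ofReal r) (k : ℕ) :
    ∀ x, ∑' v : Fin k → V, wt a x (List.ofFn v) ≤ ENNReal.ofReal r ^ k := by
  induction k with
  | zero =>
    intro x
    rw [tsum_eq_single (fun i => Fin.elim0 i : Fin 0 → V)
      (fun v hv => absurd (Subsingleton.elim _ _) hv)]
    simp [wt]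
  | succ k ih =>
    intro x
    rw [← (Fin.consEquiv (fun _ => V)).tsum_eq]
    rw [ENNReal.tsum_prod']
    have h1 : ∀ (y : V) (v : Fin k → V),
        wt a x (List.ofFn ((Fin.consEquiv (fun _ : Fin (k + 1) => V)) (y, v))) =
          ENNReal.ofReal (a x y) * wt a y (List.ofFn v) := by
      intro y v
      have : (Fin.consEquiv (fun _ : Fin (k + 1) => V)) (y, v) = Fin.cons y v := rfl
      rw [this, List.ofFn_cons, wt]
    calc ∑' (y : V) (v : Fin k → V),
          wt a x (List.ofFn ((Fin.consEquiv (fun _ : Fin (k + 1) => V)) (y, v)))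
        = ∑' (y : V), ENNReal.ofReal (a x y) * ∑' v : Fin k → V, wt a y (List.ofFn v) := by
          refine tsum_congr fun y => ?_
          rw [← ENNReal.tsum_mul_left]
          exact tsum_congr fun v => h1 y v
      _ ≤ ∑' (y : V), ENNReal.ofReal (a x y) * ENNReal.ofReal r ^ k :=
          ENNReal.tsum_le_tsum fun y => mul_le_mul_right (ih y) _
      _ = (∑' (y : V), ENNReal.ofReal (a x y)) * ENNReal.ofReal r ^ k := ENNReal.tsum_mul_right
      _ ≤ ENNReal.ofReal r * ENNReal.ofReal r ^ k := mul_le_mul_left (ha x) _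
      _ = ENNReal.ofReal r ^ (k + 1) := by rw [pow_succ, mul_comm]

theorem prod_le {Ω : Type} [MeasurableSpace Ω] (P : Measure Ω) (X : Sym2 V → Ω → Bool)
    (a : V → V → ℝ)
    (hP : ∀ x y, x ≠ y → P {ω | X s(x, y) ω = true} ≤ ENNReal.ofReal (a x y)) (l : List V) :
    ∀ x, (∀ e ∈ edg x l, ¬ e.IsDiag) →
      ((edg x l).map fun e => P (X e ⁻¹' {true})).prod ≤ wt a x l := by
  induction l with
  | nil =>
    intro x _
    simp [edg, wt]
  | cons y l ih =>
    intro x h
    rw [edg, wt, List.map_cons, List.prod_cons]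
    refine mul_le_mul' ?_ (ih y fun e he => h e ?_)
    · refine hP x y fun hxy => ?_
      exact h s(x, y) (by rw [edg]; exact List.mem_cons_self) (by rw [Sym2.mk_isDiag_iff]; exact hxy)
    · rw [edg]
      exact List.mem_cons_of_mem _ he

theorem prob_le {Ω : Type} [MeasurableSpace Ω] (P : Measure Ω) (X : Sym2 V → Ω → Bool)
    (hind : iIndepFun X P) (a : V → V → ℝ)
    (hP : ∀ x y, x ≠ y → P {ω | X s(x, y) ω = true} ≤ ENNReal.ofReal (a x y)) (l : List V) (x : V)
    (h1 : ∀ e ∈ edg x l, ¬ e.IsDiag) (h2 : (edg x l).Nodup) :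
    P {ω | ∀ e ∈ edg x l, X e ω = true} ≤ wt a x l := by
  classical
  refine le_trans (le_of_eq ?_) (prod_le P X a hP l x h1)
  rw [← List.prod_toFinset _ h2]
  rw [← hind.measure_inter_preimage_eq_mul (S := (edg x l).toFinset) (sets := fun _ => {true})
    (fun i _ => MeasurableSet.singleton true)]
  congr 1
  ext ω
  simp

theorem walk_edg (G : SimpleGraph V) {x y : V} (p : G.Walk x y) :
    edg x p.support.tail = p.edges ∧ endp x p.support.tail = y := by
  induction p with
  | nil => simp [edg, endp]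
  | cons h p ih =>
    rename_i u v w
    have h1 : (SimpleGraph.Walk.cons h p).support.tail = v :: p.support.tail := by
      rw [SimpleGraph.Walk.support_cons, List.tail_cons]
      exact (SimpleGraph.Walk.cons_tail_support p).symm
    rw [h1, edg, endp, ih.1, ih.2]
    exact ⟨by rw [SimpleGraph.Walk.edges_cons], rfl⟩

theorem chain (T : Sym2 V → Prop) {x y : V} (hxy : x ≠ y)
    (h : Relation.TransGen (fun a b => a ≠ b ∧ T s(a, b)) x y) (hn : ¬ T s(x, y)) :
    ∃ (k : ℕ) (v : Fin k → V), 2 ≤ k ∧ endp x (List.ofFn v) = y ∧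
      (∀ e ∈ edg x (List.ofFn v), ¬ e.IsDiag) ∧ (edg x (List.ofFn v)).Nodup ∧
      ∀ e ∈ edg x (List.ofFn v), T e := by
  classical
  let G : SimpleGraph V :=
    { Adj := fun a b => a ≠ b ∧ T s(a, b)
      symm := ⟨fun a b hab => ⟨hab.1.symm, by rw [Sym2.eq_swap]; exact hab.2⟩⟩
      loopless := ⟨fun a ha => ha.1 rfl⟩ }
  have hr : G.Reachable x y := by
    induction h with
    | single h => exact SimpleGraph.Adj.reachable (G := G) h
    | tail _ h ih =>
      rename_i b c hab
      by_cases hb : x = b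
      · subst hb
        exact SimpleGraph.Adj.reachable (G := G) h
      · by_cases hT : T s(x, b)
        · exact (SimpleGraph.Adj.reachable (G := G) (show G.Adj x b from ⟨hb, hT⟩)).trans
            (SimpleGraph.Adj.reachable (G := G) h)
        · exact (ih hb hT).trans (SimpleGraph.Adj.reachable (G := G) h)
  obtain ⟨p⟩ := hr
  set q : G.Walk x y := p.toPath.1 with hq
  have hqp : q.IsPath := p.toPath.2
  set l : List V := q.support.tail with hl
  have hle := walk_edg G q
  refine ⟨l.length, l.get, ?_, ?_, ?_, ?_, ?_⟩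
  · have hlen : l.length = q.length := by
      rw [hl, List.length_tail, SimpleGraph.Walk.length_support]
      rfl
    rw [hlen]
    by_contra hlt
    have h01 : q.length = 0 ∨ q.length = 1 := by omega
    rcases h01 with h0 | h1
    · exact hxy (SimpleGraph.Walk.eq_of_length_eq_zero h0)
    · exact hn (SimpleGraph.Walk.adj_of_length_eq_one h1).2
  · rw [List.ofFn_get]
    exact hle.2
  · rw [List.ofFn_get]
    intro e he
    rw [hle.1] at he
    exact G.not_isDiag_of_mem_edgeSet (q.edges_subset_edgeSet he)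
  · rw [List.ofFn_get, hle.1]
    exact hqp.isTrail.edges_nodup
  · rw [List.ofFn_get, hle.1]
    intro e he
    have h1 := q.edges_subset_edgeSet he
    induction e with
    | h a b => exact h1.2

end Pool.Agent.H385.LRSaw

namespace Pool.Agent.H385.LR

open MeasureTheory ProbabilityTheory Set Filter
open Pool.Agent.H958.LR Pool.Agent.H385.LRSaw
open scoped ENNReal NNReal Nat Topology

theorem s_saw : S_SAW := by
  intro V _ Ω _ P _ X a r hm hind ha0 hP hr0 hr1 hsum
  constructor
  · intro x
    classical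
    set f : V → ℕ → ℝ≥0∞ := fun y k => ∑' v : Fin k → V,
      if 2 ≤ k ∧ endp x (List.ofFn v) = y then wt a x (List.ofFn v) else 0 with hf
    have h1 : ∀ y, P {ω | x ≠ y ∧ Relation.TransGen (fun a b => a ≠ b ∧ X s(a, b) ω = true) x y ∧
        X s(x, y) ω = false} ≤ ∑' k : ℕ, f y k := by
      intro y
      have hsub : {ω | x ≠ y ∧ Relation.TransGen (fun a b => a ≠ b ∧ X s(a, b) ω = true) x y ∧
          X s(x, y) ω = false} ⊆ ⋃ k : ℕ, ⋃ v : Fin k → V,
            {ω | 2 ≤ k ∧ endp x (List.ofFn v) = y ∧ (∀ e ∈ edg x (List.ofFn v), ¬ e.IsDiag) ∧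
              (edg x (List.ofFn v)).Nodup ∧ ∀ e ∈ edg x (List.ofFn v), X e ω = true} := by
        rintro ω ⟨hxy, ht, hn⟩
        obtain ⟨k, v, hkv⟩ := chain (fun e => X e ω = true) hxy ht (by rw [hn]; simp)
        exact mem_iUnion.2 ⟨k, mem_iUnion.2 ⟨v, hkv⟩⟩
      refine (measure_mono hsub).trans ((measure_iUnion_le _).trans ?_)
      refine ENNReal.tsum_le_tsum fun k => (measure_iUnion_le _).trans ?_
      refine ENNReal.tsum_le_tsum fun v => ?_
      by_cases hc : (2 ≤ k ∧ endp x (List.ofFn v) = y) ∧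
          (∀ e ∈ edg x (List.ofFn v), ¬ e.IsDiag) ∧ (edg x (List.ofFn v)).Nodup
      · rw [if_pos hc.1]
        refine le_trans (measure_mono ?_)
          (prob_le P X hind a hP (List.ofFn v) x hc.2.1 hc.2.2)
        rintro ω ⟨_, _, _, _, h⟩
        exact h
      · have : {ω | 2 ≤ k ∧ endp x (List.ofFn v) = y ∧ (∀ e ∈ edg x (List.ofFn v), ¬ e.IsDiag) ∧
              (edg x (List.ofFn v)).Nodup ∧ ∀ e ∈ edg x (List.ofFn v), X e ω = true} = ∅ := by
          ext ω
          simp only [mem_setOf_eq, mem_empty_iff_false, iff_false]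
          rintro ⟨g1, g2, g3, g4, _⟩
          exact hc ⟨⟨g1, g2⟩, g3, g4⟩
        rw [this, measure_empty]
        exact zero_le
    calc ∑' y, P {ω | x ≠ y ∧ Relation.TransGen (fun a b => a ≠ b ∧ X s(a, b) ω = true) x y ∧
          X s(x, y) ω = false} ≤ ∑' y, ∑' k : ℕ, f y k := ENNReal.tsum_le_tsum h1
      _ = ∑' k : ℕ, ∑' y, f y k := ENNReal.tsum_comm
      _ ≤ ∑' k : ℕ, (if 2 ≤ k then ENNReal.ofReal r ^ k else 0) := by
          refine ENNReal.tsum_le_tsum fun k => ?_
          simp only [hf]
          rw [ENNReal.tsum_comm]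
          by_cases hk : 2 ≤ k
          · rw [if_pos hk]
            refine le_trans (ENNReal.tsum_le_tsum fun v => ?_) (tsum_wt a r hsum k x)
            rw [tsum_eq_single (endp x (List.ofFn v))]
            · rw [if_pos ⟨hk, rfl⟩]
            · intro y hy
              rw [if_neg]
              rintro ⟨_, h⟩
              exact hy h.symm
          · rw [if_neg hk]
            refine le_of_eq ?_
            rw [ENNReal.tsum_eq_zero]
            intro v
            rw [ENNReal.tsum_eq_zero]
            intro y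
            rw [if_neg]
            rintro ⟨h, _⟩
            exact hk h
      _ = ∑' k : ℕ, ENNReal.ofReal r ^ (k + 2) := by
          have h2 := Summable.sum_add_tsum_nat_add' (f := fun k : ℕ =>
            (if 2 ≤ k then ENNReal.ofReal r ^ k else (0 : ℝ≥0∞))) (k := 2) ENNReal.summable
          rw [← h2]
          simp [Finset.sum_range_succ]
      _ = ENNReal.ofReal r ^ 2 * (1 - ENNReal.ofReal r)⁻¹ := by
          rw [← ENNReal.tsum_geometric, ← ENNReal.tsum_mul_left]
          refine tsum_congr fun k => ?_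
          rw [pow_add, mul_comm]
      _ ≤ ENNReal.ofReal (r ^ 2 / (1 - r)) := by
          rw [ENNReal.ofReal_div_of_pos (by linarith), ENNReal.ofReal_pow hr0, div_eq_mul_inv,
            ENNReal.ofReal_sub _ hr0, ENNReal.ofReal_one]
  · intro x
    have hsub : {ω | ∃ y, x ≠ y ∧ X s(x, y) ω = true} =
        ⋃ y, {ω | x ≠ y ∧ X s(x, y) ω = true} := by
      ext ω
      simp
    rw [hsub]
    refine (measure_iUnion_le _).trans (le_trans (ENNReal.tsum_le_tsum fun y => ?_) (hsum x))
    by_cases hxy : x = y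
    · have : {ω | x ≠ y ∧ X s(x, y) ω = true} = ∅ := by
        ext ω
        simp [hxy]
      rw [this, measure_empty]
      exact zero_le
    · refine le_trans (measure_mono ?_) (hP x y hxy)
      rintro ω ⟨_, h⟩
      exact h

end Pool.Agent.H385.LR
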